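import Mathlib
import Pool.Agent.Work.MP_970e75_an.Full.Interface

/-!
Block A2a: an `sl₂`-triple lifts through a minimal abelian ideal. The correction is given by the
standard contracting homotopy with the Casimir operator.
-/

set_option autoImplicit false

namespace Pool.Agent.Work.MP_970e75_an_helper76

open Pool.Agent.Work.MP_970e75_an.Full

/-- The linear algebra behind the lifting: solve the equations for the correction terms. -/
theorem solve_of_casimir {V : Type} [AddCommGroup V] [Module ℂ V] (H E F Oi : V →ₗ[ℂ] V)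
    (hHE : ∀ v, H (E v) = E (H v) + (2 : ℂ) • E v) (hHF : ∀ v, H (F v) = F (H v) - (2 : ℂ) • F v)
    (hEF : ∀ v, E (F v) = F (E v) + H v)
    (hO1 : ∀ v, Oi (E (F v) + F (E v) + (1 / 2 : ℂ) • H (H v)) = v)
    (hO2 : ∀ v, E (F (Oi v)) + F (E (Oi v)) + (1 / 2 : ℂ) • H (H (Oi v)) = v)
    (α β γ : V) (hγ : H γ = E β - F α) :
    ∃ a b c : V, H a - (2 : ℂ) • a - E b = -α ∧ H c + (2 : ℂ) • c - F b = -β ∧
      b = γ + E c - F a := by
  have hinj : ∀ v w : V, E (F v) + F (E v) + (1 / 2 : ℂ) • H (H v) =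
      E (F w) + F (E w) + (1 / 2 : ℂ) • H (H w) → v = w := by
    intro v w h
    rw [← hO1 v, ← hO1 w, h]
  have hcE : ∀ v, E (Oi v) = Oi (E v) := by
    intro v
    apply hinj
    rw [hO2]
    have h := congrArg E (hO2 v)
    simp only [map_add, map_smul] at h
    rw [← h]
    simp only [hHE, hEF, map_add, map_smul]
    module
  have hcF : ∀ v, F (Oi v) = Oi (F v) := by
    intro v
    apply hinj
    rw [hO2]
    have h := congrArg F (hO2 v)
    simp only [map_add, map_smul] at h
    rw [← h]
    simp only [hHF, hEF, map_add, map_sub, map_smul]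
    module
  have hcH : ∀ v, H (Oi v) = Oi (H v) := by
    intro v
    apply hinj
    rw [hO2]
    have h := congrArg H (hO2 v)
    simp only [map_add, map_smul] at h
    rw [← h]
    simp only [hHF, hEF, hHE, map_add, map_smul]
    module
  refine ⟨-Oi (-E γ + (1 / 2 : ℂ) • H α), -Oi (-E β - F α), -Oi (F γ + (1 / 2 : ℂ) • H β),
    ?_, ?_, ?_⟩
  · have h1 : H (-E γ + (1 / 2 : ℂ) • H α) - (2 : ℂ) • (-E γ + (1 / 2 : ℂ) • H α) -
        E (-E β - F α) = E (F α) + F (E α) + (1 / 2 : ℂ) • H (H α) := by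
      simp only [map_add, map_sub, map_neg, map_smul, hHE, hγ, hEF]
      module
    have h2 : H (-Oi (-E γ + (1 / 2 : ℂ) • H α)) - (2 : ℂ) • (-Oi (-E γ + (1 / 2 : ℂ) • H α)) -
        E (-Oi (-E β - F α)) =
        -Oi (H (-E γ + (1 / 2 : ℂ) • H α) - (2 : ℂ) • (-E γ + (1 / 2 : ℂ) • H α) -
          E (-E β - F α)) := by
      rw [map_neg H, map_neg E, hcH, hcE, map_sub Oi, map_sub Oi, map_smul Oi]
      module
    rw [h2, h1, hO1]
  · have h1 : H (F γ + (1 / 2 : ℂ) • H β) + (2 : ℂ) • (F γ + (1 / 2 : ℂ) • H β) -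
        F (-E β - F α) = E (F β) + F (E β) + (1 / 2 : ℂ) • H (H β) := by
      simp only [map_add, map_sub, map_neg, map_smul, hHF, hγ, hEF]
      module
    have h2 : H (-Oi (F γ + (1 / 2 : ℂ) • H β)) + (2 : ℂ) • (-Oi (F γ + (1 / 2 : ℂ) • H β)) -
        F (-Oi (-E β - F α)) =
        -Oi (H (F γ + (1 / 2 : ℂ) • H β) + (2 : ℂ) • (F γ + (1 / 2 : ℂ) • H β) -
          F (-E β - F α)) := by
      rw [map_neg H, map_neg F, hcH, hcF, map_sub Oi, map_add Oi (H _), map_smul Oi]
      module
    rw [h2, h1, hO1]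
  · have h1 : E (F γ + (1 / 2 : ℂ) • H β) - F (-E γ + (1 / 2 : ℂ) • H α) - (-E β - F α) =
        E (F γ) + F (E γ) + (1 / 2 : ℂ) • H (H γ) := by
      simp only [map_add, map_sub, map_neg, map_smul, hγ, hHE, hHF, hEF]
      module
    have h2 : γ + E (-Oi (F γ + (1 / 2 : ℂ) • H β)) - F (-Oi (-E γ + (1 / 2 : ℂ) • H α)) -
        (-Oi (-E β - F α)) = γ -
        Oi (E (F γ + (1 / 2 : ℂ) • H β) - F (-E γ + (1 / 2 : ℂ) • H α) - (-E β - F α)) := by
      simp only [map_neg, map_sub, hcE, hcF]
      module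
    rw [h1, hO1, sub_self] at h2
    exact (sub_eq_zero.1 h2).symm

attribute [local instance 100] LieRing.ofAssociativeRing

/-- In a nonzero finite dimensional representation of `sl₂` the Casimir operator kills no vector
or there is a nonzero vector killed by everything. -/
theorem casimir_aux (V : Type) [AddCommGroup V] [Module ℂ V] [FiniteDimensional ℂ V]
    [Nontrivial V] (H E F : Module.End ℂ V) (ht : IsSl2Triple H E F)
    (h0 : ∀ v, E (F v) + F (E v) + (1 / 2 : ℂ) • H (H v) = 0) :
    ∃ m : V, m ≠ 0 ∧ H m = 0 ∧ E m = 0 ∧ F m = 0 := by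
  obtain ⟨μ, m, hm, hP⟩ := ht.exists_hasPrimitiveVectorWith (R := ℂ) (M := V)
  obtain ⟨n, hn⟩ := hP.exists_nat
  have h1 : H m = μ • m := hP.lie_h
  have h2 : E m = 0 := hP.lie_e
  have h3 : E (F m) = μ • m := by
    have := hP.lie_e_pow_succ_toEnd_f 0
    simpa using this
  have h4 := h0 m
  rw [h3, h2, map_zero, h1, map_smul, h1, add_zero, smul_smul, smul_smul, ← add_smul] at h4
  rcases smul_eq_zero.1 h4 with h5 | h5
  · have h6 : (n : ℂ) * (1 + (n : ℂ) / 2) = 0 := by
      rw [← hn]
      linear_combination h5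
    have h7 : (n : ℂ) = 0 := by
      rcases mul_eq_zero.1 h6 with h7 | h7
      · exact h7
      · exfalso
        have h8 : ((n : ℂ) + 2) = 0 := by linear_combination 2 * h7
        have h9 : ((n + 2 : ℕ) : ℂ) = 0 := by push_cast; exact h8
        rw [Nat.cast_eq_zero] at h9
        omega
    have hn0 : n = 0 := by exact_mod_cast h7
    subst hn0
    refine ⟨m, hm, ?_, h2, ?_⟩
    · rw [h1, hn]; simp
    · have := hP.pow_toEnd_f_eq_zero_of_eq_nat hn
      simpa using this
  · exact absurd h5 hm

theorem stmt_A2a : Stmt_A2a := by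
  intro L _ _ _ V hV hab hmin h e f ht hspan
  obtain ⟨h0, rfl⟩ := LieSubmodule.Quotient.surjective_mk' V h
  obtain ⟨e0, rfl⟩ := LieSubmodule.Quotient.surjective_mk' V e
  obtain ⟨f0, rfl⟩ := LieSubmodule.Quotient.surjective_mk' V f
  have hmk : ∀ x : L, LieSubmodule.Quotient.mk' V x = 0 ↔ x ∈ V := fun x =>
    LieSubmodule.Quotient.mk_eq_zero' (N := V)
  have hmkl : ∀ x y : L, LieSubmodule.Quotient.mk' V ⁅x, y⁆ =
      ⁅LieSubmodule.Quotient.mk' V x, LieSubmodule.Quotient.mk' V y⁆ := fun x y => rfl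
  -- the defects
  have hα : ⁅h0, e0⁆ - (2 : ℂ) • e0 ∈ V := by
    rw [← hmk, map_sub, map_smul, hmkl, ht.lie_h_e_smul ℂ, sub_self]
  have hβ : ⁅h0, f0⁆ + (2 : ℂ) • f0 ∈ V := by
    rw [← hmk, map_add, map_smul, hmkl, ht.lie_lie_smul_f ℂ, neg_add_cancel]
  have hγ : ⁅e0, f0⁆ - h0 ∈ V := by
    rw [← hmk, map_sub, hmkl, ht.lie_e_f, sub_self]
  -- generation of `L`
  have hgen : ∀ x : L, ∃ (a b c : ℂ) (v : L), v ∈ V ∧ x = a • h0 + b • e0 + c • f0 + v := by
    intro x
    obtain ⟨a, b, c, habc⟩ := hspan (LieSubmodule.Quotient.mk' V x)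
    refine ⟨a, b, c, x - (a • h0 + b • e0 + c • f0), ?_, by abel⟩
    rw [← hmk, map_sub, map_add, map_add, map_smul, map_smul, map_smul, habc, sub_self]
  -- the operators
  let H : Module.End ℂ V := LieModule.toEnd ℂ L V h0
  let E : Module.End ℂ V := LieModule.toEnd ℂ L V e0
  let F : Module.End ℂ V := LieModule.toEnd ℂ L V f0
  have hHv : ∀ v : V, ((H v : V) : L) = ⁅h0, (v : L)⁆ := fun v => rfl
  have hEv : ∀ v : V, ((E v : V) : L) = ⁅e0, (v : L)⁆ := fun v => rfl
  have hFv : ∀ v : V, ((F v : V) : L) = ⁅f0, (v : L)⁆ := fun v => rfl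
  have hHE : ∀ v : V, H (E v) = E (H v) + (2 : ℂ) • E v := by
    intro v
    apply Subtype.ext
    have h1 := hab _ hα v v.2
    rw [sub_lie, smul_lie] at h1
    change ⁅h0, ⁅e0, (v : L)⁆⁆ = ⁅e0, ⁅h0, (v : L)⁆⁆ + (2 : ℂ) • ⁅e0, (v : L)⁆
    rw [leibniz_lie h0 e0, sub_eq_zero.1 h1, add_comm]
  have hHF : ∀ v : V, H (F v) = F (H v) - (2 : ℂ) • F v := by
    intro v
    apply Subtype.ext
    have h1 := hab _ hβ v v.2
    rw [add_lie, smul_lie] at h1
    change ⁅h0, ⁅f0, (v : L)⁆⁆ = ⁅f0, ⁅h0, (v : L)⁆⁆ - (2 : ℂ) • ⁅f0, (v : L)⁆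
    rw [leibniz_lie h0 f0, eq_neg_of_add_eq_zero_left h1]
    abel
  have hEF : ∀ v : V, E (F v) = F (E v) + H v := by
    intro v
    apply Subtype.ext
    have h1 := hab _ hγ v v.2
    rw [sub_lie] at h1
    change ⁅e0, ⁅f0, (v : L)⁆⁆ = ⁅f0, ⁅e0, (v : L)⁆⁆ + ⁅h0, (v : L)⁆
    rw [leibniz_lie e0 f0, sub_eq_zero.1 h1, add_comm]
  set α : V := ⟨_, hα⟩ with hαdef
  set β : V := ⟨_, hβ⟩ with hβdef
  set γ : V := ⟨_, hγ⟩ with hγdef
  have hco : H γ = E β - F α := by
    apply Subtype.ext
    change ⁅h0, ⁅e0, f0⁆ - h0⁆ = ⁅e0, ⁅h0, f0⁆ + (2 : ℂ) • f0⁆ - ⁅f0, ⁅h0, e0⁆ - (2 : ℂ) • e0⁆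
    rw [lie_sub, lie_self, sub_zero, leibniz_lie h0 e0, lie_add, lie_sub, lie_smul, lie_smul,
      ← lie_skew f0 ⁅h0, e0⁆, ← lie_skew f0 e0]
    module
  -- solve for the corrections
  have hsol : ∃ a b c : V, H a - (2 : ℂ) • a - E b = -α ∧ H c + (2 : ℂ) • c - F b = -β ∧
      b = γ + E c - F a := by
    by_cases hH : ∀ v, H v = 0
    · -- trivial action
      have hE : ∀ v, E v = 0 := by
        intro v
        have h1 := hHE v
        rw [hH, hH, map_zero, zero_add] at h1
        exact (smul_eq_zero.1 h1.symm).resolve_left two_ne_zero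
      have hF : ∀ v, F v = 0 := by
        intro v
        have h1 := hHF v
        rw [hH, hH, map_zero, zero_sub] at h1
        exact (smul_eq_zero.1 (neg_eq_zero.1 h1.symm)).resolve_left two_ne_zero
      refine ⟨(1 / 2 : ℂ) • α, γ, -((1 / 2 : ℂ) • β), ?_, ?_, ?_⟩
      · rw [hH, hE]; module
      · rw [hH, hF]; module
      · rw [hE, hF]; module
    · push Not at hH
      obtain ⟨v0, hv0⟩ := hH
      have htr : IsSl2Triple H E F := by
        refine ⟨?_, ?_, ?_, ?_⟩
        · intro h1
          rw [h1] at hv0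
          exact hv0 rfl
        · apply LinearMap.ext
          intro v
          rw [LieRing.of_associative_ring_bracket, LinearMap.sub_apply, Module.End.mul_apply,
            Module.End.mul_apply, hEF]
          abel
        · apply LinearMap.ext
          intro v
          rw [LieRing.of_associative_ring_bracket, LinearMap.sub_apply, Module.End.mul_apply,
            Module.End.mul_apply, hHE, LinearMap.smul_apply, two_smul, two_smul]
          abel
        · apply LinearMap.ext
          intro v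
          rw [LieRing.of_associative_ring_bracket, LinearMap.sub_apply, Module.End.mul_apply,
            Module.End.mul_apply, hHF, LinearMap.neg_apply, LinearMap.smul_apply, two_smul,
            two_smul]
          abel
      have : Nontrivial V := ⟨⟨H v0, 0, hv0⟩⟩
      -- the Casimir operator
      let O : Module.End ℂ V := E * F + F * E + (1 / 2 : ℂ) • (H * H)
      have hOv : ∀ v, O v = E (F v) + F (E v) + (1 / 2 : ℂ) • H (H v) := fun v => rfl
      have hOE : ∀ v, O (E v) = E (O v) := by
        intro v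
        rw [hOv, hOv]
        simp only [hHE, hEF, map_add, map_smul]
        module
      have hOF : ∀ v, O (F v) = F (O v) := by
        intro v
        rw [hOv, hOv]
        simp only [hHF, hEF, map_add, map_sub, map_smul]
        module
      have hOH : ∀ v, O (H v) = H (O v) := by
        intro v
        rw [hOv, hOv]
        simp only [hHF, hEF, hHE, map_add, map_sub, map_smul]
        module
      -- invariance of submodules
      have hinv : ∀ (K : Submodule ℂ V), (∀ v ∈ K, H v ∈ K ∧ E v ∈ K ∧ F v ∈ K) →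
          K = ⊥ ∨ K = ⊤ := by
        intro K hK
        let I : LieIdeal ℂ L :=
          { (K.map V.toSubmodule.subtype) with
            lie_mem := by
              intro x m hm
              change m ∈ K.map V.toSubmodule.subtype at hm
              change ⁅x, m⁆ ∈ K.map V.toSubmodule.subtype
              obtain ⟨k, hk, rfl⟩ := Submodule.mem_map.1 hm
              obtain ⟨a, b, c, v, hv, rfl⟩ := hgen x
              refine Submodule.mem_map.2 ⟨a • H k + b • E k + c • F k, ?_, ?_⟩
              · obtain ⟨h1, h2, h3⟩ := hK k hk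
                exact K.add_mem (K.add_mem (K.smul_mem _ h1) (K.smul_mem _ h2)) (K.smul_mem _ h3)
              · have h4 : ⁅v, ((k : V) : L)⁆ = 0 := hab v hv k k.2
                change ((a • H k + b • E k + c • F k : V) : L) = _
                rw [add_lie, add_lie, add_lie, smul_lie, smul_lie, smul_lie]
                change a • ⁅h0, (k : L)⁆ + b • ⁅e0, (k : L)⁆ + c • ⁅f0, (k : L)⁆ =
                  a • ⁅h0, (k : L)⁆ + b • ⁅e0, (k : L)⁆ + c • ⁅f0, (k : L)⁆ + ⁅v, (k : L)⁆
                rw [h4, add_zero] }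
        have hImem : ∀ m, m ∈ I ↔ m ∈ K.map V.toSubmodule.subtype := fun m => Iff.rfl
        have hIV : I ≤ V := by
          intro m hm
          rw [hImem] at hm
          obtain ⟨k, hk, rfl⟩ := Submodule.mem_map.1 hm
          exact k.2
        rcases hmin I hIV with h1 | h1
        · left
          rw [eq_bot_iff]
          intro k hk
          have h2 : (k : L) ∈ I := (hImem _).2 (Submodule.mem_map.2 ⟨k, hk, rfl⟩)
          rw [h1, LieSubmodule.mem_bot] at h2
          rw [Submodule.mem_bot]
          exact Subtype.ext h2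
        · right
          rw [eq_top_iff]
          intro k _
          have h2 : (k : L) ∈ I := by
            rw [h1]
            exact k.2
          rw [hImem] at h2
          obtain ⟨k', hk', h3⟩ := Submodule.mem_map.1 h2
          have h4 : k' = k := Subtype.ext h3
          rwa [← h4]
      -- the Casimir operator is injective
      have hOinj : Function.Injective O := by
        rw [← LinearMap.ker_eq_bot]
        rcases hinv (LinearMap.ker O) (by
          intro v hv
          rw [LinearMap.mem_ker] at hv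
          refine ⟨?_, ?_, ?_⟩
          · rw [LinearMap.mem_ker, hOH, hv, map_zero]
          · rw [LinearMap.mem_ker, hOE, hv, map_zero]
          · rw [LinearMap.mem_ker, hOF, hv, map_zero]) with h1 | h1
        · exact h1
        · exfalso
          have h2 : ∀ v, O v = 0 := by
            intro v
            have : v ∈ LinearMap.ker O := by
              rw [h1]
              exact Submodule.mem_top
            exact this
          obtain ⟨m, hm0, hHm, hEm, hFm⟩ := casimir_aux V H E F htr (fun v => by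
            rw [← hOv]
            exact h2 v)
          -- the joint kernel
          let K : Submodule ℂ V := LinearMap.ker H ⊓ (LinearMap.ker E ⊓ LinearMap.ker F)
          have hKmem : ∀ v, v ∈ K ↔ H v = 0 ∧ E v = 0 ∧ F v = 0 := fun v => Iff.rfl
          rcases hinv K (by
            intro v hv
            obtain ⟨h3, h4, h5⟩ := (hKmem v).1 hv
            rw [h3, h4, h5]
            exact ⟨K.zero_mem, K.zero_mem, K.zero_mem⟩) with h3 | h3
          · apply hm0
            have : m ∈ K := (hKmem m).2 ⟨hHm, hEm, hFm⟩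
            rw [h3, Submodule.mem_bot] at this
            exact this
          · apply hv0
            have : v0 ∈ K := by
              rw [h3]
              exact Submodule.mem_top
            exact ((hKmem v0).1 this).1
      have hObij : Function.Bijective O :=
        ⟨hOinj, LinearMap.surjective_of_injective hOinj⟩
      let Oe : V ≃ₗ[ℂ] V := LinearEquiv.ofBijective O hObij
      refine solve_of_casimir H E F (Oe.symm : V →ₗ[ℂ] V) hHE hHF hEF ?_ ?_ α β γ hco
      · intro v
        rw [← hOv]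
        exact Oe.symm_apply_apply v
      · intro v
        rw [← hOv]
        exact Oe.apply_symm_apply v
  obtain ⟨a, b, c, h1, h2, h3⟩ := hsol
  have h1' : ⁅h0, (a : L)⁆ - (2 : ℂ) • (a : L) - ⁅e0, (b : L)⁆ =
      -(⁅h0, e0⁆ - (2 : ℂ) • e0) := congrArg (Subtype.val) h1
  have h2' : ⁅h0, (c : L)⁆ + (2 : ℂ) • (c : L) - ⁅f0, (b : L)⁆ =
      -(⁅h0, f0⁆ + (2 : ℂ) • f0) := congrArg (Subtype.val) h2
  have h3' : (b : L) = ⁅e0, f0⁆ - h0 + ⁅e0, (c : L)⁆ - ⁅f0, (a : L)⁆ := congrArg (Subtype.val) h3
  refine ⟨h0 + b, e0 + a, f0 + c, ?_, ?_, ?_, ?_⟩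
  · intro h4
    apply ht.h_ne_zero
    have h5 : LieSubmodule.Quotient.mk' V (h0 + (b : L)) = 0 := by rw [h4, map_zero]
    rw [map_add, (hmk (b : L)).2 b.2, add_zero] at h5
    exact h5
  · rw [lie_add, add_lie, add_lie, hab a a.2 c c.2, ← lie_skew (a : L) f0, h3']
    module
  · rw [lie_add, add_lie, add_lie, hab b b.2 a a.2, ← lie_skew (b : L) e0]
    linear_combination (norm := module) h1'
  · rw [lie_add, add_lie, add_lie, hab b b.2 c c.2, ← lie_skew (b : L) f0]
    linear_combination (norm := module) h2'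

end Pool.Agent.Work.MP_970e75_an_helper76
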