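import Mathlib
import Pool.Agent.Work.MP_970e75_an.Full.Interface
import Pool.Agent.Work.MP_970e75_an_helper76.A2a

/-!
Block A2: a finite dimensional complex Lie algebra which is not solvable contains an
`sl₂`-triple.
-/

set_option autoImplicit false

namespace Pool.Agent.Work.MP_970e75_an_helper76

open Pool.Agent.Work.MP_970e75_an.Full Module

/-- A Lie algebra with an `sl₂`-triple is not solvable. -/
theorem not_solvable_of_triple {L : Type} [LieRing L] [LieAlgebra ℂ L] {h e f : L}
    (ht : IsSl2Triple h e f) : ¬ LieAlgebra.IsSolvable L := by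
  intro hs
  rw [LieAlgebra.isSolvable_iff ℂ] at hs
  obtain ⟨k, hk⟩ := hs
  have key : ∀ n : ℕ, h ∈ LieAlgebra.derivedSeries ℂ L n ∧ e ∈ LieAlgebra.derivedSeries ℂ L n ∧
      f ∈ LieAlgebra.derivedSeries ℂ L n := by
    intro n
    induction n with
    | zero =>
      rw [LieAlgebra.derivedSeries_def, LieAlgebra.derivedSeriesOfIdeal_zero]
      exact ⟨LieSubmodule.mem_top _, LieSubmodule.mem_top _, LieSubmodule.mem_top _⟩
    | succ n ih =>
      obtain ⟨h1, h2, h3⟩ := ih
      rw [LieAlgebra.derivedSeries_def] at h1 h2 h3 ⊢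
      rw [LieAlgebra.derivedSeriesOfIdeal_succ]
      refine ⟨?_, ?_, ?_⟩
      · rw [← ht.lie_e_f]
        exact LieSubmodule.lie_mem_lie h2 h3
      · have h4 := LieSubmodule.lie_mem_lie h1 h2
        rw [ht.lie_h_e_smul ℂ] at h4
        have h5 := SMulMemClass.smul_mem (1 / 2 : ℂ) h4
        rw [smul_smul] at h5
        norm_num at h5
        exact h5
      · have h4 := LieSubmodule.lie_mem_lie h1 h3
        rw [ht.lie_lie_smul_f ℂ] at h4
        have h5 := SMulMemClass.smul_mem (-(1 / 2) : ℂ) h4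
        rw [← neg_smul, smul_smul] at h5
        norm_num at h5
        exact h5
  have h1 := (key k).1
  rw [hk, LieSubmodule.mem_bot] at h1
  exact ht.h_ne_zero h1

/-- The quotient map as a morphism of Lie algebras. -/
def quotHom {L : Type} [LieRing L] [LieAlgebra ℂ L] (V : LieIdeal ℂ L) : L →ₗ⁅ℂ⁆ L ⧸ V :=
  { (LieSubmodule.Quotient.mk' V : L →ₗ[ℂ] L ⧸ V) with map_lie' := rfl }

theorem quotHom_surjective {L : Type} [LieRing L] [LieAlgebra ℂ L] (V : LieIdeal ℂ L) :
    Function.Surjective (quotHom V) := LieSubmodule.Quotient.surjective_mk' V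

theorem quotHom_eq_zero {L : Type} [LieRing L] [LieAlgebra ℂ L] (V : LieIdeal ℂ L) (x : L) :
    quotHom V x = 0 ↔ x ∈ V := LieSubmodule.Quotient.mk_eq_zero' (N := V)

/-- Extensions by abelian ideals of solvable algebras are solvable. -/
theorem solvable_of_quotient {L : Type} [LieRing L] [LieAlgebra ℂ L] (V : LieIdeal ℂ L)
    (hab : ∀ a ∈ V, ∀ b ∈ V, ⁅a, b⁆ = 0) (hq : LieAlgebra.IsSolvable (L ⧸ V)) :
    LieAlgebra.IsSolvable L := by
  rw [LieAlgebra.isSolvable_iff ℂ] at hq ⊢
  obtain ⟨k, hk⟩ := hq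
  refine ⟨k + 1, ?_⟩
  have h1 : LieAlgebra.derivedSeries ℂ L k ≤ V := by
    intro x hx
    rw [← quotHom_eq_zero]
    have h2 : quotHom V x ∈ (LieAlgebra.derivedSeries ℂ L k).map (quotHom V) :=
      LieIdeal.mem_map hx
    rw [LieIdeal.derivedSeries_map_eq k (quotHom_surjective V), hk, LieSubmodule.mem_bot] at h2
    exact h2
  rw [LieAlgebra.derivedSeries_def, LieAlgebra.derivedSeriesOfIdeal_succ, eq_bot_iff,
    LieSubmodule.lieIdeal_oper_eq_span, LieSubmodule.lieSpan_le]
  rintro _ ⟨⟨a, ha⟩, ⟨b, hb⟩, rfl⟩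
  rw [LieAlgebra.derivedSeries_def] at h1
  have h3 := hab a (h1 ha) b (h1 hb)
  simp [h3]

/-- The semisimple case. -/
theorem triple_of_trivialRadical (L : Type) [LieRing L] [LieAlgebra ℂ L] [FiniteDimensional ℂ L]
    [LieAlgebra.HasTrivialRadical ℂ L] (hs : ¬ LieAlgebra.IsSolvable L) :
    ∃ h e f : L, IsSl2Triple h e f := by
  obtain ⟨x, hx⟩ := LieAlgebra.exists_isCartanSubalgebra_engel ℂ L
  set H := LieSubalgebra.engel ℂ x
  by_cases hw : ∃ α : LieModule.Weight ℂ H L, α.IsNonZero
  · obtain ⟨α, hα⟩ := hw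
    obtain ⟨h, e, f, ht, -, -⟩ := LieAlgebra.IsKilling.exists_isSl2Triple_of_weight_isNonZero hα
    exact ⟨h, e, f, ht⟩
  · exfalso
    apply hs
    push Not at hw
    have h1 : (⊤ : LieSubmodule ℂ H L) ≤ H.toLieSubmodule := by
      rw [← LieModule.iSup_genWeightSpace_eq_top' ℂ H L, iSup_le_iff]
      intro χ
      have h2 : χ.IsZero := hw χ
      rw [← LieAlgebra.rootSpace_zero_eq]
      have h4 : (χ : H → ℂ) = 0 := h2
      rw [h4]
    have h2 : ∀ y : L, y ∈ H := by
      intro y
      exact h1 (LieSubmodule.mem_top y)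
    let g : L →ₗ⁅ℂ⁆ H :=
      { toFun := fun y => ⟨y, h2 y⟩
        map_add' := fun _ _ => rfl
        map_smul' := fun _ _ => rfl
        map_lie' := rfl }
    have hg : Function.Injective g := by
      intro a b hab
      exact congrArg (fun z : H => (z : L)) hab
    have : LieRing.IsNilpotent H := hx.nilpotent
    exact hg.lieAlgebra_isSolvable

theorem stmt_A2_aux (n : ℕ) : ∀ (L : Type) [LieRing L] [LieAlgebra ℂ L] [FiniteDimensional ℂ L],
    finrank ℂ L = n → ¬ LieAlgebra.IsSolvable L → ∃ h e f : L, IsSl2Triple h e f := by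
  induction n using Nat.strong_induction_on with
  | _ n ih =>
    intro L _ _ _ hn hs
    by_cases hr : LieAlgebra.HasTrivialRadical ℂ L
    · exact triple_of_trivialRadical L hs
    · rw [LieAlgebra.hasTrivialRadical_iff_no_abelian_ideals] at hr
      push Not at hr
      obtain ⟨I, hI, hI0⟩ := hr
      have hwf : WellFoundedLT (LieSubmodule ℂ L L) :=
        LieSubmodule.wellFoundedLT_of_isArtinian ℂ L L
      obtain ⟨V, ⟨hV0, hVI⟩, hmin⟩ := hwf.wf.has_min
        {J : LieSubmodule ℂ L L | J ≠ ⊥ ∧ J ≤ I} ⟨I, hI0, le_rfl⟩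
      have hmin' : ∀ J : LieIdeal ℂ L, J ≤ V → J = ⊥ ∨ J = V := by
        intro J hJ
        by_cases hJ0 : J = ⊥
        · exact Or.inl hJ0
        · right
          have h1 := hmin J ⟨hJ0, le_trans hJ hVI⟩
          by_contra h2
          exact h1 (lt_of_le_of_ne hJ h2)
      have hab : ∀ a ∈ V, ∀ b ∈ V, ⁅a, b⁆ = 0 := by
        intro a ha b hb
        have h1 : ⁅(⟨a, hVI ha⟩ : I), (⟨b, hVI hb⟩ : I)⁆ = 0 := trivial_lie_zero _ _ _ _
        exact congrArg (fun z : I => (z : L)) h1
      have hq : ¬ LieAlgebra.IsSolvable (L ⧸ V) := fun h => hs (solvable_of_quotient V hab h)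
      have hlt : finrank ℂ (L ⧸ V) < n := by
        have h1 : finrank ℂ (L ⧸ V.toSubmodule) + finrank ℂ V.toSubmodule = finrank ℂ L :=
          Submodule.finrank_quotient_add_finrank V.toSubmodule
        have h2 : 0 < finrank ℂ V.toSubmodule := by
          rw [Module.finrank_pos_iff, Submodule.nontrivial_iff_ne_bot]
          intro h3
          exact hV0 ((LieSubmodule.toSubmodule_eq_bot V).1 h3)
        have h3 : finrank ℂ (L ⧸ V) = finrank ℂ (L ⧸ V.toSubmodule) := rfl
        omega
      have : FiniteDimensional ℂ (L ⧸ V) :=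
        inferInstanceAs (FiniteDimensional ℂ (L ⧸ V.toSubmodule))
      obtain ⟨h, e, f, ht⟩ := ih _ hlt (L ⧸ V) rfl hq
      let m : LieSubalgebra ℂ L := (ht.toLieSubalgebra ℂ).comap (quotHom V)
      have hmem : ∀ x : L, x ∈ m ↔ quotHom V x ∈ ht.toLieSubalgebra ℂ := fun x => Iff.rfl
      by_cases hm : ∀ x : L, x ∈ m
      · refine stmt_A2a L V hV0 hab hmin' h e f ht ?_
        intro x
        obtain ⟨y, rfl⟩ := quotHom_surjective V x
        obtain ⟨c1, c2, c3, h1⟩ := IsSl2Triple.mem_toLieSubalgebra_iff.1 ((hmem y).1 (hm y))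
        refine ⟨c3, c1, c2, ?_⟩
        rw [h1, ht.lie_e_f]
        abel
      · push Not at hm
        have hlt2 : finrank ℂ m < n := by
          rw [← hn]
          apply Submodule.finrank_lt (s := m.toSubmodule)
          intro h1
          obtain ⟨x, hx⟩ := hm
          apply hx
          have : x ∈ m.toSubmodule := by
            rw [h1]
            exact Submodule.mem_top
          exact this
        have hms : ¬ LieAlgebra.IsSolvable m := by
          intro h1
          let φ : m →ₗ⁅ℂ⁆ L ⧸ V := (quotHom V).comp m.incl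
          have h2 : LieAlgebra.IsSolvable φ.range := LieHom.isSolvable_range φ
          have hr : ∀ y ∈ ht.toLieSubalgebra ℂ, y ∈ φ.range := by
            intro y hy
            obtain ⟨x, rfl⟩ := quotHom_surjective V y
            exact ⟨⟨x, (hmem x).2 hy⟩, rfl⟩
          have hh : h ∈ φ.range := hr h (IsSl2Triple.mem_toLieSubalgebra_iff.2
            ⟨0, 0, 1, by rw [ht.lie_e_f]; simp⟩)
          have he : e ∈ φ.range := hr e (IsSl2Triple.mem_toLieSubalgebra_iff.2
            ⟨1, 0, 0, by simp⟩)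
          have hf : f ∈ φ.range := hr f (IsSl2Triple.mem_toLieSubalgebra_iff.2
            ⟨0, 1, 0, by simp⟩)
          have ht2 : IsSl2Triple (⟨h, hh⟩ : φ.range) ⟨e, he⟩ ⟨f, hf⟩ := by
            refine ⟨?_, ?_, ?_, ?_⟩
            · intro h3
              exact ht.h_ne_zero (congrArg (fun z : φ.range => (z : L ⧸ V)) h3)
            · exact Subtype.ext ht.lie_e_f
            · exact Subtype.ext ht.lie_h_e_nsmul
            · exact Subtype.ext ht.lie_h_f_nsmul
          exact not_solvable_of_triple ht2 h2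
        obtain ⟨h', e', f', ht'⟩ := ih _ hlt2 m rfl hms
        refine ⟨h', e', f', ?_, ?_, ?_, ?_⟩
        · intro h3
          exact ht'.h_ne_zero (Subtype.ext h3)
        · exact congrArg (fun z : m => (z : L)) ht'.lie_e_f
        · exact congrArg (fun z : m => (z : L)) ht'.lie_h_e_nsmul
        · exact congrArg (fun z : m => (z : L)) ht'.lie_h_f_nsmul

theorem stmt_A2 : Stmt_A2 := by
  intro L _ _ _ hs
  exact stmt_A2_aux _ L rfl hs

end Pool.Agent.Work.MP_970e75_an_helper76
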