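import Mathlib
import Pool.Agent.Work.MP_970e75_an.Full.Interface

/-!
Block AS: structure of solvable non-abelian complex Lie algebras (Lie's theorem used twice).
-/

set_option autoImplicit false

namespace Pool.Agent.Work.MP_970e75_an_helper76

open Pool.Agent.Work.MP_970e75_an.Full

/-- Lie's theorem for the quotient of the adjoint module by a proper ideal. -/
theorem exists_weight_mod (L : Type) [LieRing L] [LieAlgebra ℂ L] [FiniteDimensional ℂ L]
    [LieAlgebra.IsSolvable L] (N : LieIdeal ℂ L) (hN : ∃ x : L, x ∉ N) :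
    ∃ (e : L) (χ : Module.Dual ℂ L), e ∉ N ∧ ∀ Y : L, ⁅Y, e⁆ - χ Y • e ∈ N := by
  obtain ⟨x, hx⟩ := hN
  have hnt : Nontrivial (L ⧸ N) := by
    refine ⟨⟨LieSubmodule.Quotient.mk x, 0, ?_⟩⟩
    intro h
    exact hx ((LieSubmodule.Quotient.mk_eq_zero' (N := N)).1 h)
  obtain ⟨χ, hχ⟩ := LieModule.exists_nontrivial_weightSpace_of_isSolvable ℂ L (L ⧸ N)
  obtain ⟨⟨m, hm⟩, hm0⟩ := exists_ne (0 : LieModule.weightSpace (L ⧸ N) χ)
  rw [LieModule.mem_weightSpace] at hm
  obtain ⟨e, rfl⟩ := LieSubmodule.Quotient.surjective_mk' N m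
  refine ⟨e, χ, ?_, ?_⟩
  · intro he
    apply hm0
    apply Subtype.ext
    exact (LieSubmodule.Quotient.mk_eq_zero' (N := N)).2 he
  · intro Y
    have h := hm Y
    have h2 : (LieSubmodule.Quotient.mk (⁅Y, e⁆ - χ Y • e) : L ⧸ N) = 0 := by
      have h3 : (LieSubmodule.Quotient.mk' N (⁅Y, e⁆ - χ Y • e)) = 0 := by
        rw [map_sub, map_smul, LieModuleHom.map_lie, h, sub_self]
      exact h3
    exact (LieSubmodule.Quotient.mk_eq_zero' (N := N)).1 h2

theorem stmt_AS : Stmt_AS := by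
  intro L _ _ _ _ hab
  -- step 1: the element `X`
  obtain ⟨a, b, hab⟩ := hab
  have hcen : ∀ z : L, z ∈ LieAlgebra.center ℂ L ↔ ∀ y : L, ⁅y, z⁆ = 0 := fun z =>
    LieModule.mem_maxTrivSubmodule ℂ L L z
  have hex : ∃ x : L, x ∉ LieAlgebra.center ℂ L := by
    refine ⟨b, fun hb => hab ?_⟩
    exact (hcen b).1 hb a
  obtain ⟨e0, χ0, he0, hχ0⟩ := exists_weight_mod L (LieAlgebra.center ℂ L) hex
  have hX : ∃ X : L, X ∉ LieAlgebra.center ℂ L ∧
      ((∃ A : L, ⁅A, X⁆ = X) ∨ ∀ Y Z : L, ⁅⁅Y, X⁆, Z⁆ = 0) := by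
    by_cases h0 : χ0 = 0
    · refine ⟨e0, he0, Or.inr ?_⟩
      intro Y Z
      have h1 := hχ0 Y
      rw [h0] at h1
      simp only [LinearMap.zero_apply, zero_smul, sub_zero] at h1
      have h2 := (hcen _).1 h1 Z
      rw [← lie_skew, h2, neg_zero]
    · obtain ⟨A', hA'⟩ : ∃ A', χ0 A' ≠ 0 := by
        by_contra hcon
        push Not at hcon
        exact h0 (LinearMap.ext hcon)
      set A : L := (χ0 A')⁻¹ • A' with hA
      have hχA : χ0 A = 1 := by
        rw [hA, map_smul, smul_eq_mul, inv_mul_cancel₀ hA']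
      have h1 := hχ0 A
      rw [hχA, one_smul] at h1
      refine ⟨e0 + (⁅A, e0⁆ - e0), ?_, Or.inl ⟨A, ?_⟩⟩
      · intro h2
        exact he0 (by simpa using (LieAlgebra.center ℂ L).sub_mem h2 h1)
      · have h3 := (hcen _).1 h1 A
        rw [lie_add, h3, add_zero]
        abel
  obtain ⟨X, hXc, hXor⟩ := hX
  -- step 2: a maximal ideal inside the centraliser of `X`
  obtain ⟨U, hU, hUmax⟩ : ∃ U : LieIdeal ℂ L, (∀ u ∈ U, ⁅X, u⁆ = 0) ∧
      ∀ J : LieIdeal ℂ L, (∀ u ∈ J, ⁅X, u⁆ = 0) → U ≤ J → J ≤ U := by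
    have hwf : WellFoundedGT (LieSubmodule ℂ L L) := inferInstance
    obtain ⟨U, hU, hmax⟩ := hwf.wf.has_min {J : LieSubmodule ℂ L L | ∀ u ∈ J, ⁅X, u⁆ = 0}
      ⟨⊥, by
        intro u hu
        rw [LieSubmodule.mem_bot] at hu
        rw [hu, lie_zero]⟩
    refine ⟨U, hU, fun J hJ hle => ?_⟩
    have h1 := hmax J hJ
    by_contra hcon
    exact h1 (lt_of_le_not_ge hle hcon)
  have hUne : ∃ x : L, x ∉ U := by
    by_contra hcon
    push Not at hcon
    apply hXc
    rw [hcen]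
    intro y
    rw [← lie_skew, hU y (hcon y), neg_zero]
  obtain ⟨e, χ, he, hχ⟩ := exists_weight_mod L U hUne
  -- `[X, e] ≠ 0`
  have hXe : ⁅X, e⁆ ≠ 0 := by
    intro h0
    let J : LieIdeal ℂ L :=
      { (U.toSubmodule ⊔ Submodule.span ℂ {e}) with
        lie_mem := by
          intro x m hm
          change m ∈ U.toSubmodule ⊔ Submodule.span ℂ {e} at hm
          change ⁅x, m⁆ ∈ U.toSubmodule ⊔ Submodule.span ℂ {e}
          obtain ⟨u, hu, w, hw, rfl⟩ := Submodule.mem_sup.1 hm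
          obtain ⟨c, rfl⟩ := Submodule.mem_span_singleton.1 hw
          rw [lie_add, lie_smul]
          have h1 : ⁅x, u⁆ ∈ U := lie_mem_right ℂ L U x u hu
          have h2 : ⁅x, e⁆ = (⁅x, e⁆ - χ x • e) + χ x • e := by abel
          rw [h2, smul_add]
          refine Submodule.add_mem _ (Submodule.mem_sup_left h1)
            (Submodule.add_mem _ (Submodule.mem_sup_left (U.smul_mem c (hχ x)))
              (Submodule.mem_sup_right (Submodule.smul_mem _ _ (Submodule.smul_mem _ _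
                (Submodule.mem_span_singleton_self e))))) }
    have hJmem : ∀ m, m ∈ J ↔ m ∈ U.toSubmodule ⊔ Submodule.span ℂ {e} := fun m => Iff.rfl
    have hJ : ∀ u ∈ J, ⁅X, u⁆ = 0 := by
      intro m hm
      rw [hJmem] at hm
      obtain ⟨u, hu, w, hw, rfl⟩ := Submodule.mem_sup.1 hm
      obtain ⟨c, rfl⟩ := Submodule.mem_span_singleton.1 hw
      rw [lie_add, lie_smul, h0, hU u hu, smul_zero, add_zero]
    have hle : U ≤ J := by
      intro m hm
      rw [hJmem]
      exact Submodule.mem_sup_left hm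
    exact he (hUmax J hJ hle ((hJmem e).2
      (Submodule.mem_sup_right (Submodule.mem_span_singleton_self e))))
  -- `χ X = 0`
  have hχX : χ X = 0 := by
    by_contra hne
    rcases hXor with ⟨A, hA⟩ | hβ
    · have h1 : ⁅⁅A, X⁆, e⁆ ∈ U := by
        have h4 : ⁅A, ⁅X, e⁆ - χ X • e⁆ ∈ U := lie_mem_right ℂ L U _ _ (hχ X)
        have h5 : ⁅X, ⁅A, e⁆ - χ A • e⁆ ∈ U := lie_mem_right ℂ L U _ _ (hχ A)
        have h6 := hχ A
        have h7 := hχ X
        have h8 : ⁅⁅A, X⁆, e⁆ =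
            ⁅A, ⁅X, e⁆ - χ X • e⁆ - ⁅X, ⁅A, e⁆ - χ A • e⁆ + χ X • (⁅A, e⁆ - χ A • e)
              - χ A • (⁅X, e⁆ - χ X • e) := by
          rw [lie_lie, lie_sub, lie_sub, lie_smul, lie_smul]
          simp only [smul_sub, smul_smul, mul_comm (χ X) (χ A)]
          abel
        rw [h8]
        exact U.sub_mem (U.add_mem (U.sub_mem h4 h5) (U.smul_mem _ h6)) (U.smul_mem _ h7)
      rw [hA] at h1
      have h2 : χ X • e ∈ U := by
        have := U.sub_mem h1 (hχ X)
        simpa using this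
      exact he (by simpa [smul_smul, inv_mul_cancel₀ hne] using U.smul_mem (χ X)⁻¹ h2)
    · -- central case
      have h1 : ⁅X, e⁆ ∈ LieAlgebra.center ℂ L := by
        rw [hcen]
        intro Z
        rw [← lie_skew]
        have := hβ e Z
        rw [← lie_skew X e, neg_lie, this, neg_zero, neg_zero]
      have h2 : LieAlgebra.center ℂ L ≤ U := by
        have hJ : ∀ u ∈ U ⊔ LieAlgebra.center ℂ L, ⁅X, u⁆ = 0 := by
          intro m hm
          obtain ⟨u, hu, w, hw, rfl⟩ := LieSubmodule.mem_sup _ _ _ |>.1 hm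
          rw [lie_add, hU u hu, (hcen w).1 hw X, add_zero]
        exact le_trans le_sup_right (hUmax _ hJ le_sup_left)
      have h3 := U.sub_mem (h2 h1) (hχ X)
      have h4 : χ X • e ∈ U := by simpa using h3
      exact he (by simpa [smul_smul, inv_mul_cancel₀ hne] using U.smul_mem (χ X)⁻¹ h4)
  refine ⟨X, e, U, hU, fun Y => ⟨χ Y, hχ Y⟩, ?_, hXe, hXor⟩
  have := hχ X
  rw [hχX, zero_smul, sub_zero] at this
  exact this

end Pool.Agent.Work.MP_970e75_an_helper76
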