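import Mathlib
import Pool.Agent.Work.MP_970e75_an.Full.Interface

/-!
Block HU: the numerical lemma behind the Kempf-Ness argument.
-/

set_option autoImplicit false

namespace Pool.Agent.Work.MP_970e75_an_helper76

open Pool.Agent.Work.MP_970e75_an.Full

theorem stmt_HU : Stmt_HU := by
  intro a R hR ha ha0 hmul hpos hneg
  have hR0 : 0 < R := by linarith
  have hlR : 0 ≤ Real.log R := Real.log_nonneg hR
  set S : Set ℝ := {x | ∃ m : ℕ, 1 ≤ m ∧ a (-(m : ℤ)) ≠ 0 ∧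
    x = (Real.log (a (-(m : ℤ))) + m - Real.log R) / m} with hS
  have key : ∀ n m : ℕ, 1 ≤ n → 1 ≤ m → a n ≠ 0 → a (-(m : ℤ)) ≠ 0 →
      (Real.log (a (-(m : ℤ))) + m - Real.log R) / m ≤ (Real.log R - n - Real.log (a n)) / n := by
    intro n m hn hm h1 h2
    have hn' : (0 : ℝ) < n := by exact_mod_cast hn
    have hm' : (0 : ℝ) < m := by exact_mod_cast hm
    have hn1 : (1 : ℝ) ≤ n := by exact_mod_cast hn
    have hm1 : (1 : ℝ) ≤ m := by exact_mod_cast hm
    have p1 : 0 < a n := lt_of_le_of_ne (ha _) (Ne.symm h1)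
    have p2 : 0 < a (-(m : ℤ)) := lt_of_le_of_ne (ha _) (Ne.symm h2)
    have h3 := Real.log_le_log (by positivity) (hmul n m hn hm)
    rw [Real.log_mul (by positivity) (by positivity), Real.log_pow, Real.log_pow,
      Real.log_mul (by positivity) (Real.exp_pos _).ne', Real.log_exp] at h3
    rw [div_le_div_iff₀ hm' hn']
    nlinarith [mul_nonneg hlR (by linarith : (0 : ℝ) ≤ (n : ℝ) + m - 1)]
  obtain ⟨n0, hn0, hn0a⟩ := hpos
  obtain ⟨m0, hm0, hm0a⟩ := hneg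
  obtain ⟨n1, rfl⟩ : ∃ n1 : ℕ, n0 = n1 := ⟨n0.toNat, by omega⟩
  obtain ⟨m1, rfl⟩ : ∃ m1 : ℕ, m0 = -(m1 : ℤ) := ⟨(-m0).toNat, by omega⟩
  have hn1 : 1 ≤ n1 := by omega
  have hm1 : 1 ≤ m1 := by omega
  have hne : S.Nonempty := ⟨_, m1, hm1, hm0a, rfl⟩
  have hbd : BddAbove S := by
    refine ⟨(Real.log R - n1 - Real.log (a n1)) / n1, ?_⟩
    rintro x ⟨m, hm, hma, rfl⟩
    exact key n1 m hn1 hm hn0a hma
  refine ⟨sSup S, ?_⟩
  intro n
  by_cases hz : a n = 0
  · rw [hz, mul_zero]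
    positivity
  have p1 : 0 < a n := lt_of_le_of_ne (ha _) (Ne.symm hz)
  rcases lt_trichotomy n 0 with hn | hn | hn
  · obtain ⟨m, rfl⟩ : ∃ m : ℕ, n = -(m : ℤ) := ⟨(-n).toNat, by omega⟩
    have hm : 1 ≤ m := by omega
    have hm' : (0 : ℝ) < m := by exact_mod_cast hm
    have h1 : (Real.log (a (-(m : ℤ))) + m - Real.log R) / m ≤ sSup S :=
      le_csSup hbd ⟨m, hm, hz, rfl⟩
    rw [div_le_iff₀ hm'] at h1
    rw [← Real.exp_log p1, ← Real.exp_log hR0, ← Real.exp_add, ← Real.exp_add, Real.exp_le_exp]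
    rw [abs_of_neg hn]
    push_cast
    linarith
  · subst hn
    simpa using ha0
  · obtain ⟨m, rfl⟩ : ∃ m : ℕ, n = (m : ℤ) := ⟨n.toNat, by omega⟩
    have hm : 1 ≤ m := by omega
    have hm' : (0 : ℝ) < m := by exact_mod_cast hm
    have h1 : sSup S ≤ (Real.log R - m - Real.log (a m)) / m := by
      apply csSup_le hne
      rintro x ⟨m', hm', hma, rfl⟩
      exact key m m' hm hm' hz hma
    rw [le_div_iff₀ hm'] at h1
    rw [← Real.exp_log p1, ← Real.exp_log hR0, ← Real.exp_add, ← Real.exp_add, Real.exp_le_exp]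
    rw [abs_of_pos hn]
    push_cast
    linarith

end Pool.Agent.Work.MP_970e75_an_helper76
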