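import Mathlib
import Pool.Agent.Work.MP_970e75_an.Full.Interface

/-!
Block SE: torus orbits are separated by invariant monomials.
-/

set_option autoImplicit false

namespace Pool.Agent.Work.MP_970e75_an_helper76

open Pool.Agent.Work.MP_970e75_an.Full

section

variable {J : Type} (w : J → ℤ) (r : J → ℂˣ)

/-- The generator attached to an index. -/
def gen (j : J) : Multiplicative ℤ × ℂˣ := (Multiplicative.ofAdd (w j), r j)

theorem rep_of_mem (T : Set J) (x : Multiplicative ℤ × ℂˣ)
    (hx : x ∈ Submonoid.closure (gen w r '' T)) :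
    ∃ k : J →₀ ℕ, (∀ j, k j ≠ 0 → j ∈ T) ∧
      x.1 = Multiplicative.ofAdd (k.sum fun j m => (m : ℤ) * w j) ∧
      x.2 = k.prod fun j m => r j ^ m := by
  induction hx using Submonoid.closure_induction with
  | mem x hx =>
    obtain ⟨j, hj, rfl⟩ := hx
    refine ⟨Finsupp.single j 1, ?_, ?_, ?_⟩
    · intro i hi
      by_cases h : j = i
      · exact h ▸ hj
      · exact absurd (Finsupp.single_eq_of_ne (Ne.symm h)) hi
    · simp [gen]
    · simp [gen]
  | one => exact ⟨0, by simp, by simp, by simp⟩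
  | mul x y _ _ hx hy =>
    obtain ⟨k, hk1, hk2, hk3⟩ := hx
    obtain ⟨l, hl1, hl2, hl3⟩ := hy
    refine ⟨k + l, ?_, ?_, ?_⟩
    · intro j hj
      by_cases h : k j = 0
      · apply hl1
        intro h'
        apply hj
        rw [Finsupp.add_apply, h, h']
      · exact hk1 j h
    · rw [Prod.fst_mul, hk2, hl2, Finsupp.sum_add_index' (by simp) (by
        intro j a b
        push_cast
        ring)]
      rfl
    · rw [Prod.snd_mul, hk3, hl3, Finsupp.prod_add_index' (by simp) (by
        intro j a b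
        rw [pow_add])]

end

theorem stmt_SE : Stmt_SE := by
  intro J w a b hk hpos hneg
  obtain ⟨jp, hjp, hap⟩ := hpos
  obtain ⟨jm, hjm, ham⟩ := hneg
  -- two-term relations
  have htwo : ∀ (i j : J) (m n : ℕ), i ≠ j → (m : ℤ) * w i + (n : ℤ) * w j = 0 →
      a i ^ m * a j ^ n = b i ^ m * b j ^ n := by
    intro i j m n hij h
    have h1 := hk (Finsupp.single i m + Finsupp.single j n) (by
      rw [Finsupp.sum_add_index' (by simp) (by
        intro j a b
        push_cast
        ring), Finsupp.sum_single_index (by simp), Finsupp.sum_single_index (by simp)]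
      exact h)
    rw [Finsupp.prod_add_index' (by simp) (by
        intro j a b
        rw [pow_add]), Finsupp.prod_single_index (by simp), Finsupp.prod_single_index (by simp),
      Finsupp.prod_add_index' (by simp) (by
        intro j a b
        rw [pow_add]), Finsupp.prod_single_index (by simp),
      Finsupp.prod_single_index (by simp)] at h1
    exact h1
  have hne : jp ≠ jm := by
    rintro rfl
    omega
  obtain ⟨P, hP⟩ : ∃ P : ℕ, w jp = P := ⟨(w jp).toNat, by omega⟩
  obtain ⟨Q, hQ⟩ : ∃ Q : ℕ, w jm = -(Q : ℤ) := ⟨(-w jm).toNat, by omega⟩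
  have hP0 : P ≠ 0 := by omega
  have hQ0 : Q ≠ 0 := by omega
  have hpm := htwo jp jm Q P hne (by rw [hP, hQ]; ring)
  have hbpm : b jp ^ Q * b jm ^ P ≠ 0 := by
    rw [← hpm]
    exact mul_ne_zero (pow_ne_zero _ hap) (pow_ne_zero _ ham)
  have hbp : b jp ≠ 0 := by
    intro h
    rw [h, zero_pow hQ0, zero_mul] at hbpm
    exact hbpm rfl
  have hbm : b jm ≠ 0 := by
    intro h
    rw [h, zero_pow hP0, mul_zero] at hbpm
    exact hbpm rfl
  -- relation of a general index with the two special ones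
  have hzero : ∀ j, a j = 0 ↔ b j = 0 := by
    intro j
    rcases lt_trichotomy (w j) 0 with h | h | h
    · obtain ⟨n, hn⟩ : ∃ n : ℕ, w j = -(n : ℤ) := ⟨(-w j).toNat, by omega⟩
      have hjne : j ≠ jp := by
        rintro rfl
        omega
      have h1 := htwo j jp P n hjne (by rw [hP, hn]; ring)
      constructor
      · intro h2
        rw [h2, zero_pow hP0, zero_mul] at h1
        rcases mul_eq_zero.1 h1.symm with h3 | h3
        · exact pow_eq_zero_iff hP0 |>.1 h3
        · exact absurd h3 (pow_ne_zero _ hbp)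
      · intro h2
        rw [h2, zero_pow hP0, zero_mul] at h1
        rcases mul_eq_zero.1 h1 with h3 | h3
        · exact pow_eq_zero_iff hP0 |>.1 h3
        · exact absurd h3 (pow_ne_zero _ hap)
    · have h1 := hk (Finsupp.single j 1) (by
        rw [Finsupp.sum_single_index (by simp), h]
        simp)
      rw [Finsupp.prod_single_index (by simp), Finsupp.prod_single_index (by simp), pow_one,
        pow_one] at h1
      rw [h1]
    · obtain ⟨n, hn⟩ : ∃ n : ℕ, w j = n := ⟨(w j).toNat, by omega⟩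
      have hjne : j ≠ jm := by
        rintro rfl
        omega
      have h1 := htwo j jm Q n hjne (by rw [hQ, hn]; ring)
      constructor
      · intro h2
        rw [h2, zero_pow hQ0, zero_mul] at h1
        rcases mul_eq_zero.1 h1.symm with h3 | h3
        · exact pow_eq_zero_iff hQ0 |>.1 h3
        · exact absurd h3 (pow_ne_zero _ hbm)
      · intro h2
        rw [h2, zero_pow hQ0, zero_mul] at h1
        rcases mul_eq_zero.1 h1 with h3 | h3
        · exact pow_eq_zero_iff hQ0 |>.1 h3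
        · exact absurd h3 (pow_ne_zero _ ham)
  -- the ratios
  classical
  let r : J → ℂˣ := fun j => if h : a j ≠ 0 then
    Units.mk0 (b j / a j) (div_ne_zero (fun h' => h ((hzero j).2 h')) h) else 1
  have hr : ∀ j, a j ≠ 0 → ((r j : ℂˣ) : ℂ) = b j / a j := by
    intro j hj
    simp only [r]
    rw [dif_pos hj]
    rfl
  have hrab : ∀ j, a j ≠ 0 → b j = (r j : ℂ) * a j := by
    intro j hj
    rw [hr j hj, div_mul_cancel₀ _ hj]
  let T : Set J := {j | a j ≠ 0}
  have hTm : ∀ j, j ∈ T ↔ a j ≠ 0 := fun j => Iff.rfl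
  let S : Submonoid (Multiplicative ℤ × ℂˣ) := Submonoid.closure (gen w r '' T)
  have hgenS : ∀ j, a j ≠ 0 → gen w r j ∈ S := fun j hj =>
    Submonoid.subset_closure ⟨j, hj, rfl⟩
  -- elements of `S` over zero are trivial
  have htriv : ∀ x ∈ S, x.1 = 1 → x.2 = 1 := by
    intro x hx h1
    obtain ⟨k, hk1, hk2, hk3⟩ := rep_of_mem w r T x hx
    rw [hk2] at h1
    have h2 : (k.sum fun j m => (m : ℤ) * w j) = 0 := by
      rw [← ofAdd_zero] at h1
      exact Multiplicative.ofAdd.injective h1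
    have h3 := hk k h2
    rw [hk3]
    apply Units.ext
    rw [Units.val_one]
    have h4 : ((k.prod fun j m => r j ^ m : ℂˣ) : ℂ) = k.prod fun j m => (r j : ℂ) ^ m := by
      simp only [Finsupp.prod, Units.coe_prod, Units.val_pow_eq_pow_val]
    rw [h4]
    have h5 : (k.prod fun j m => b j ^ m) =
        (k.prod fun j m => (r j : ℂ) ^ m) * k.prod fun j m => a j ^ m := by
      rw [← Finsupp.prod_mul]
      apply Finsupp.prod_congr
      intro j hj
      rw [← mul_pow, ← hrab j ((hTm j).1 (hk1 j (Finsupp.mem_support_iff.1 hj)))]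
    have h6 : (k.prod fun j m => a j ^ m) ≠ 0 := by
      rw [Finsupp.prod, Finset.prod_ne_zero_iff]
      intro j hj
      exact pow_ne_zero _ ((hTm j).1 (hk1 j (Finsupp.mem_support_iff.1 hj)))
    rw [← h3] at h5
    exact (mul_eq_right₀ h6).1 h5.symm
  -- inverses of generators
  have hinvgen : ∀ j, a j ≠ 0 → (gen w r j)⁻¹ ∈ S := by
    intro j hj
    have hstep : ∀ (y : Multiplicative ℤ × ℂˣ), y ∈ S → (gen w r j * y).1 = 1 →
        (gen w r j)⁻¹ ∈ S := by
      intro y hy h1
      have h2 := htriv _ (S.mul_mem (hgenS j hj) hy) h1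
      have h3 : gen w r j * y = 1 := Prod.ext h1 h2
      have h4 : (gen w r j)⁻¹ = y := inv_eq_of_mul_eq_one_right h3
      rw [h4]
      exact hy
    rcases lt_trichotomy (w j) 0 with h | h | h
    · obtain ⟨n, hn⟩ : ∃ n : ℕ, w j = -(n : ℤ) := ⟨(-w j).toNat, by omega⟩
      refine hstep (gen w r j ^ (P - 1) * gen w r jp ^ n)
        (S.mul_mem (S.pow_mem (hgenS j hj) _) (S.pow_mem (hgenS jp hap) _)) ?_
      rw [← mul_assoc, ← pow_succ', Nat.sub_add_cancel (Nat.one_le_iff_ne_zero.2 hP0)]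
      simp only [gen, Prod.fst_mul, Prod.pow_fst, ← ofAdd_nsmul, ← ofAdd_add]
      rw [hP, hn, ← ofAdd_zero]
      congr 1
      simp only [nsmul_eq_mul]
      ring
    · refine hstep 1 S.one_mem ?_
      simp [gen, h]
    · obtain ⟨n, hn⟩ : ∃ n : ℕ, w j = n := ⟨(w j).toNat, by omega⟩
      refine hstep (gen w r j ^ (Q - 1) * gen w r jm ^ n)
        (S.mul_mem (S.pow_mem (hgenS j hj) _) (S.pow_mem (hgenS jm ham) _)) ?_
      rw [← mul_assoc, ← pow_succ', Nat.sub_add_cancel (Nat.one_le_iff_ne_zero.2 hQ0)]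
      simp only [gen, Prod.fst_mul, Prod.pow_fst, ← ofAdd_nsmul, ← ofAdd_add]
      rw [hQ, hn, ← ofAdd_zero]
      congr 1
      simp only [nsmul_eq_mul]
      ring
  have hinv : ∀ x ∈ S, x⁻¹ ∈ S := by
    intro x hx
    induction hx using Submonoid.closure_induction with
    | mem x hx =>
      obtain ⟨j, hj, rfl⟩ := hx
      exact hinvgen j hj
    | one => rw [inv_one]; exact S.one_mem
    | mul x y _ _ hx hy =>
      rw [mul_inv]
      exact S.mul_mem hx hy
  -- the group of weights
  let A : AddSubgroup ℤ :=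
    { carrier := {n | ∃ u : ℂˣ, (Multiplicative.ofAdd n, u) ∈ S}
      add_mem' := by
        rintro m n ⟨u, hu⟩ ⟨v, hv⟩
        exact ⟨u * v, S.mul_mem hu hv⟩
      zero_mem' := ⟨1, S.one_mem⟩
      neg_mem' := by
        rintro m ⟨u, hu⟩
        exact ⟨u⁻¹, hinv _ hu⟩ }
  obtain ⟨d, hd⟩ := Int.subgroup_cyclic A
  have hAmem : ∀ n : ℤ, n ∈ A ↔ ∃ u : ℂˣ, (Multiplicative.ofAdd n, u) ∈ S := fun n => Iff.rfl
  have hdA : d ∈ A := by
    rw [hd]
    exact AddSubgroup.subset_closure rfl
  obtain ⟨ρ, hρ⟩ := (hAmem d).1 hdA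
  have hAd : ∀ n ∈ A, ∃ q : ℤ, n = q * d := by
    intro n hn
    rw [hd, AddSubgroup.mem_closure_singleton] at hn
    obtain ⟨q, hq⟩ := hn
    exact ⟨q, by rw [← hq, smul_eq_mul]⟩
  have hd0 : d ≠ 0 := by
    rintro rfl
    obtain ⟨q, hq⟩ := hAd (w jp) ⟨r jp, hgenS jp hap⟩
    rw [mul_zero] at hq
    omega
  have hpow : ∀ (x : Multiplicative ℤ × ℂˣ), x ∈ S → ∀ q : ℤ, x ^ q ∈ S := by
    intro x hx q
    obtain ⟨n, rfl | rfl⟩ := q.eq_nat_or_neg
    · rw [zpow_natCast]
      exact S.pow_mem hx _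
    · rw [zpow_neg, zpow_natCast]
      exact hinv _ (S.pow_mem hx _)
  refine ⟨Complex.log ρ / d, ?_⟩
  have hdC : (d : ℂ) ≠ 0 := by exact_mod_cast hd0
  intro j
  by_cases hj : a j = 0
  · rw [hj, (hzero j).1 hj, mul_zero]
  · obtain ⟨q, hq⟩ := hAd (w j) ⟨r j, hgenS j hj⟩
    have h1 := S.mul_mem (hgenS j hj) (hinv _ (hpow _ hρ q))
    have h2 := htriv _ h1 (by
      simp only [gen, Prod.fst_mul, Prod.fst_inv, Prod.pow_fst, ← ofAdd_zsmul, ← ofAdd_neg,
        ← ofAdd_add]
      rw [hq, ← ofAdd_zero]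
      congr 1
      simp)
    have h3 : r j = ρ ^ q := by
      simp only [gen, Prod.snd_mul, Prod.snd_inv, Prod.pow_snd] at h2
      exact mul_inv_eq_one.1 h2
    rw [hrab j hj, h3, hq]
    congr 1
    have h4 : (((q * d : ℤ) : ℂ) * (Complex.log ρ / d)) = (q : ℂ) * Complex.log ρ := by
      push_cast
      field_simp
    rw [h4, Complex.exp_int_mul, Complex.exp_log (Units.ne_zero ρ), Units.val_zpow_eq_zpow_val]

end Pool.Agent.Work.MP_970e75_an_helper76
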